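import Pool.Agent.H13.LD2.Defs
import Pool.Agent.H13.LinDimDefs
import Pool.Agent.H13.Halving

set_option autoImplicit false

namespace Pool.MP_bfdf54_al.Conv

universe u

open Pool.Agent.H13.LinDim Pool.Agent.H13.Halving
open scoped Pointwise

/-- The homomorphism of an action. -/
abbrev act (n : ℕ) (Ω : Type) [MulAction (Equiv.Perm (Fin n)) Ω] :
    Equiv.Perm (Fin n) →* Equiv.Perm Ω := MulAction.toPermHom _ Ω

lemma hasRep {F : Type u} [Field F] {n : ℕ} {Ω : Type} [MulAction (Equiv.Perm (Fin n)) Ω] {d : ℕ}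
    (h : Pool.Agent.H13.LinDim.HasRep F (Equiv.Perm (Fin n)) Ω d) : Pool.MP_bfdf54_al.HasRep F (act n Ω) d := by
  obtain ⟨V, _, _, ρ, φ, hfd, hd, hinj, heq⟩ := h
  let b : Module.Basis (Fin d) F V := Module.finBasisOfFinrankEq F V hd
  refine ⟨fun g => LinearMap.toMatrix b b (ρ g), fun x => b.repr (φ x), ?_, ?_, ?_, ?_⟩
  · simp
  · intro g h
    change LinearMap.toMatrix b b (ρ (g * h)) = _
    rw [map_mul]
    exact LinearMap.toMatrix_mul b (ρ g) (ρ h)
  · intro x y hxy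
    apply hinj
    apply b.repr.injective
    exact DFunLike.coe_injective hxy
  · intro g x
    change (b.repr (φ (g • x)) : Fin d → F) = (LinearMap.toMatrix b b (ρ g)).mulVec (b.repr (φ x))
    rw [LinearMap.toMatrix_mulVec_repr, heq]

lemma lindim_le {F : Type u} [Field F] {n : ℕ} {Ω : Type} [MulAction (Equiv.Perm (Fin n)) Ω]
    [Finite Ω] :
    Pool.MP_bfdf54_al.lindim F (act n Ω) ≤ Pool.Agent.H13.LinDim.lindim F (Equiv.Perm (Fin n)) Ω :=
  Nat.sInf_le (hasRep (hasRep_lindim F _ Ω))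

lemma admissible {n : ℕ} {Ω : Type} [MulAction (Equiv.Perm (Fin n)) Ω]
    (h : Pool.Agent.H13.LinDim.Admissible n Ω) : Pool.MP_bfdf54_al.Admissible (act n Ω) := by
  have hfaith := h.faithful
  have hprim := h.primitive
  refine ⟨h.finite, MulAction.toPerm_injective, ⟨fun x y => ?_, ?_⟩, ?_⟩
  · obtain ⟨g, hg⟩ := MulAction.exists_smul_eq (Equiv.Perm (Fin n)) x y
    exact ⟨g, hg⟩
  · intro r hr hinv
    by_cases hall : ∀ x y, r x y → x = y
    · exact Or.inl hall
    · right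
      simp only [not_forall] at hall
      obtain ⟨x, y, hxy, hne⟩ := hall
      have hblock : MulAction.IsBlock (Equiv.Perm (Fin n)) {z | r x z} := by
        rw [MulAction.isBlock_iff_smul_eq_of_mem]
        intro g z hz hgz
        have hz' : r x z := hz
        have hgz' : r x (g • z) := hgz
        have h1 : r (g • x) (g • z) := hinv g x z hz'
        have h2 : r x (g • x) := hr.trans hgz' (hr.symm h1)
        ext w
        constructor
        · rintro ⟨v, hv, rfl⟩
          exact hr.trans h2 (hinv g x v hv)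
        · intro hw
          refine ⟨g⁻¹ • w, ?_, smul_inv_smul g w⟩
          have h3 : r (g • x) w := hr.trans (hr.symm h2) hw
          have h4 := hinv g⁻¹ _ _ h3
          have h5 : (act n Ω g⁻¹) (g • x) = x := inv_smul_smul g x
          rw [h5] at h4
          exact h4
      rcases hprim.isTrivialBlock_of_isBlock hblock with hs | hu
      · exact absurd (hs (hr.refl x) hxy) hne
      · intro v w
        have hv : v ∈ {z | r x z} := hu ▸ Set.mem_univ v
        have hw : w ∈ {z | r x z} := hu ▸ Set.mem_univ w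
        exact hr.trans (hr.symm hv) hw
  · rintro k ⟨e, he, hrange, heq⟩
    apply h.not_subset k
    have hmem : ∀ x, (e x).card = k := fun x => by
      have : e x ∈ Set.range e := ⟨x, rfl⟩
      rw [hrange] at this
      exact this
    refine ⟨Equiv.ofBijective (fun x => ⟨e x, hmem x⟩) ⟨?_, ?_⟩, ?_⟩
    · intro x y hxy
      exact he (Subtype.ext_iff.1 hxy)
    · rintro ⟨s, hs⟩
      have : s ∈ Set.range e := by rw [hrange]; exact hs
      obtain ⟨x, hx⟩ := this
      exact ⟨x, Subtype.ext hx⟩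
    · intro g x
      exact heq g x

lemma choose_two_cast (n : ℕ) : ((n.choose 2 : ℕ) : ℝ) = ((n : ℝ) ^ 2 - n) / 2 := by
  rw [Nat.cast_choose_two]
  ring

/-- The halving action of `S_n`, `n ≥ 6` even. -/
theorem halving (n : ℕ) (hev : Even n) (h6 : 6 ≤ n) :
    ∃ (Ω : Type) (a : Equiv.Perm (Fin n) →* Equiv.Perm Ω), Pool.MP_bfdf54_al.Admissible a ∧
      (∀ (F : Type u) [Field F], (2 : F) = 0 →
        (Pool.MP_bfdf54_al.lindim F a : ℝ) ≤ n - 1) ∧
      (∀ (F : Type u) [Field F] (p : ℕ), p.Prime → p ≠ 2 → (p : F) = 0 → p ∣ n - 2 →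
        (Pool.MP_bfdf54_al.lindim F a : ℝ) ≤ ((n : ℝ) ^ 2 - 5 * n + 2) / 2) := by
  obtain ⟨a, ha⟩ := hev
  obtain ⟨A, -, hA⟩ := Finset.exists_subset_card_eq
    (s := (Finset.univ : Finset (Fin n))) (n := a) (by rw [Finset.card_fin]; omega)
  have hAc : A.card = Aᶜ.card := by
    rw [Finset.card_compl, Fintype.card_fin]; omega
  let i0 : MulAction (Equiv.Perm (Fin n)) (Om A) := inferInstance
  have hadm : Pool.Agent.H13.LinDim.Admissible n (Om A) := by
    refine ⟨?_, ?_, ?_, ?_⟩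
    · infer_instance
    · exact faithful_Om (by omega) hAc
    · exact isPreprimitive_Om (by omega) hAc
    · rintro k ⟨e, he⟩
      exact not_kSubset (by omega) hAc k e he
  have hfin : Finite (Om A) := hadm.finite
  refine ⟨Om A, act n (Om A), admissible hadm, ?_, ?_⟩
  · intro F _ h2
    have hchar : CharP F 2 := CharTwo.of_one_ne_zero_of_two_eq_zero one_ne_zero h2
    have h1 := Pool.Agent.H13.LinDim.lindim_le (hasRep_char_two (A := A) (by omega) hAc F)
    rw [Fintype.card_fin] at h1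
    have h2 : ((n - 1 : ℕ) : ℝ) = (n : ℝ) - 1 := by
      rw [Nat.cast_sub (by omega)]; simp
    rw [← h2]
    exact_mod_cast (lindim_le (F := F)).trans h1
  · intro F _ p hp hp2 hp0 hdvd
    have hchar : CharP F p := by
      have h1 := ringChar.dvd hp0
      rcases (Nat.dvd_prime hp).1 h1 with h | h
      · exact absurd h CharP.ringChar_ne_one
      · rw [← h]
        exact ringChar.charP F
    have h2 : (2 : F) ≠ 0 := by
      intro h
      have h3 : ((2 : ℕ) : F) = 0 := by exact_mod_cast h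
      rw [CharP.cast_eq_zero_iff F p] at h3
      exact hp2 ((Nat.prime_dvd_prime_iff_eq hp Nat.prime_two).mp h3)
    have hn : ((Fintype.card (Fin n) : ℕ) : F) = 2 := by
      rw [Fintype.card_fin]
      have h3 : ((n - 2 : ℕ) : F) = 0 := (CharP.cast_eq_zero_iff F p _).mpr hdvd
      rw [Nat.cast_sub (by omega)] at h3
      have h4 : (n : F) = ((2 : ℕ) : F) := by linear_combination h3
      rw [h4]; norm_num
    obtain ⟨d, hd, hrep⟩ := hasRep_char_odd (A := A) (by omega) hAc F h2 hn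
    have h1 := (lindim_le (F := F) (n := n) (Ω := Om A)).trans (Pool.Agent.H13.LinDim.lindim_le hrep)
    rw [Fintype.card_fin] at hd
    have h5 : (Pool.MP_bfdf54_al.lindim F (act n (Om A)) : ℝ) + 2 * n ≤ (n.choose 2 : ℕ) + 1 := by
      exact_mod_cast
        (by omega : Pool.MP_bfdf54_al.lindim F (act n (Om A)) + 2 * n ≤ n.choose 2 + 1)
    rw [choose_two_cast] at h5
    linarith

theorem main :
    (∀ n : ℕ, Even n → 6 ≤ n →
      ∃ (Ω : Type) (a : Equiv.Perm (Fin n) →* Equiv.Perm Ω), Pool.MP_bfdf54_al.Admissible a ∧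
        (∀ (F : Type u) [Field F], (2 : F) = 0 →
          (Pool.MP_bfdf54_al.lindim F a : ℝ) ≤ n - 1) ∧
        (∀ (F : Type u) [Field F] (p : ℕ), p.Prime → p ≠ 2 → (p : F) = 0 → p ∣ n - 2 →
          (Pool.MP_bfdf54_al.lindim F a : ℝ) ≤ ((n : ℝ) ^ 2 - 5 * n + 2) / 2)) ∧
    (∀ p : ℕ, p.Prime → ∀ n₀ : ℕ, ∃ n : ℕ, n₀ ≤ n ∧
      ∃ (Ω : Type) (a : Equiv.Perm (Fin n) →* Equiv.Perm Ω), Pool.MP_bfdf54_al.Admissible a ∧
        ∀ (F : Type u) [Field F], (p : F) = 0 →
          (Pool.MP_bfdf54_al.lindim F a : ℝ) < ((n : ℝ) ^ 2 - 3 * n) / 2) ∧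
    ¬ Pool.MP_bfdf54_al.Question.{u} := by
  have key : ∀ p : ℕ, p.Prime → ∀ n₀ : ℕ, ∃ n : ℕ, n₀ ≤ n ∧
      ∃ (Ω : Type) (a : Equiv.Perm (Fin n) →* Equiv.Perm Ω), Pool.MP_bfdf54_al.Admissible a ∧
        ∀ (F : Type u) [Field F], (p : F) = 0 →
          (Pool.MP_bfdf54_al.lindim F a : ℝ) < ((n : ℝ) ^ 2 - 3 * n) / 2 := by
    intro p hp n₀
    obtain ⟨Ω, i, h1, h2, h3⟩ := halving.{u} (2 * p * (n₀ + 2) + 2)
      ⟨p * (n₀ + 2) + 1, by ring⟩ (by
        have := hp.two_le
        nlinarith)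
    have hle : n₀ ≤ 2 * p * (n₀ + 2) + 2 := by
      have := hp.two_le
      nlinarith
    have hge : (6 : ℝ) ≤ ((2 * p * (n₀ + 2) + 2 : ℕ) : ℝ) := by
      have := hp.two_le
      exact_mod_cast (by nlinarith : 6 ≤ 2 * p * (n₀ + 2) + 2)
    refine ⟨2 * p * (n₀ + 2) + 2, hle, Ω, i, h1, ?_⟩
    intro F _ hF
    by_cases hp2 : p = 2
    · subst hp2
      have := h2 F (by exact_mod_cast hF)
      nlinarith
    · have := h3 F p hp hp2 hF ⟨2 * (n₀ + 2), by rw [Nat.add_sub_cancel]; ring⟩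
      linarith
  refine ⟨fun n he h6 => halving n he h6, key, ?_⟩
  rintro ⟨n₀, hn₀⟩
  obtain ⟨n, hn, Ω, i, h1, h2⟩ := key 2 Nat.prime_two n₀
  have h0 : ((2 : ℕ) : ULift.{u} (ZMod 2)) = 0 := CharP.cast_eq_zero _ 2
  have := hn₀ n hn (ULift.{u} (ZMod 2)) Ω i h1
  have := h2 (ULift.{u} (ZMod 2)) h0
  linarith

end Pool.MP_bfdf54_al.Conv
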