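import Mathlib

/-!
# Linear dimension of actions of the symmetric groups

Definitions for MP_bfdf54_al. An action of `S_n` on `Ω` is a homomorphism
`a : Equiv.Perm (Fin n) →* Equiv.Perm Ω`; the element `g` maps `x` to `a g x`.
-/

set_option autoImplicit false

namespace Pool.MP_bfdf54_al

universe u

/-- The action has a `d`-dimensional representation over `F`: a homomorphism
`ρ : S_n → GL_d(F)` and an injective map `φ : Ω → F^d` with `φ (g x) = ρ(g) φ(x)`. -/
def HasRep (F : Type u) [Field F] {n : ℕ} {Ω : Type} (a : Equiv.Perm (Fin n) →* Equiv.Perm Ω)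
    (d : ℕ) : Prop :=
  ∃ (ρ : Equiv.Perm (Fin n) → Matrix (Fin d) (Fin d) F) (φ : Ω → Fin d → F),
    ρ 1 = 1 ∧ (∀ g h, ρ (g * h) = ρ g * ρ h) ∧ Function.Injective φ ∧
    ∀ g x, φ (a g x) = (ρ g).mulVec (φ x)

/-- The `F`-linear dimension of the action. -/
noncomputable def lindim (F : Type u) [Field F] {n : ℕ} {Ω : Type}
    (a : Equiv.Perm (Fin n) →* Equiv.Perm Ω) : ℕ :=
  sInf {d : ℕ | HasRep F a d}

/-- The action is primitive: transitive, and the only invariant equivalence relations are
equality and the relation with one class. -/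
def IsPrimitive {n : ℕ} {Ω : Type} (a : Equiv.Perm (Fin n) →* Equiv.Perm Ω) : Prop :=
  (∀ x y, ∃ g, a g x = y) ∧
    ∀ r : Ω → Ω → Prop, Equivalence r → (∀ g x y, r x y → r (a g x) (a g y)) →
      (∀ x y, r x y → x = y) ∨ ∀ x y, r x y

/-- The action is equivalent to the action on the `k`-element subsets of `{1, …, n}`. -/
def IsSubsetAction {n : ℕ} {Ω : Type} (a : Equiv.Perm (Fin n) →* Equiv.Perm Ω) (k : ℕ) : Prop :=
  ∃ e : Ω → Finset (Fin n), Function.Injective e ∧ Set.range e = {s | s.card = k} ∧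
    ∀ g x, e (a g x) = (e x).image g

/-- The actions of the question: faithful primitive actions of `S_n` on finite sets, not
equivalent to a `k`-subset action for any `k`. -/
def Admissible {n : ℕ} {Ω : Type} (a : Equiv.Perm (Fin n) →* Equiv.Perm Ω) : Prop :=
  Finite Ω ∧ Function.Injective a ∧ IsPrimitive a ∧ ∀ k, ¬ IsSubsetAction a k

/-- The statement of the question: there is `n₀` such that `lindim F a ≥ (n² - 3n)/2` for every
`n ≥ n₀`, every field `F` and every admissible action `a` of `S_n`. -/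
def Question : Prop :=
  ∃ n₀ : ℕ, ∀ n : ℕ, n₀ ≤ n → ∀ (F : Type u) [Field F] (Ω : Type)
    (a : Equiv.Perm (Fin n) →* Equiv.Perm Ω), Admissible a →
      ((n : ℝ) ^ 2 - 3 * n) / 2 ≤ lindim F a

end Pool.MP_bfdf54_al
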